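import Pool.Agent.helper55.VD.SpecE0

set_option autoImplicit false

open scoped ENNReal ComplexConjugate
open MeasureTheory Filter Set

namespace Pool.Agent.VDA

open Pool.Agent.VQ (PS KZ cmZ perZ)
open Pool.Agent.RPQ (IsOp)

noncomputable section

theorem EAV_inner {X : Type} [MeasurableSpace X] (μ : Measure X) {f g : X → ℂ} (hf : MemLp f 2 μ) (hg : MemLp g 2 μ) :
    inner ℂ (hf.toLp f) (hg.toLp g) = ∫ x, conj (f x) * g x ∂μ := by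
  rw [L2.inner_def]
  refine integral_congr_ae ?_
  filter_upwards [hf.coeFn_toLp, hg.coeFn_toLp] with x h1 h2
  rw [h1, h2, RCLike.inner_apply]
  ring

theorem EAV_norm {X : Type} [MeasurableSpace X] (μ : Measure X) {f : X → ℂ} (hf : MemLp f 2 μ) :
    ‖hf.toLp f‖ ^ 2 = ∫ x, ‖f x‖ ^ 2 ∂μ := by
  have h1 := inner_self_eq_norm_sq_to_K (𝕜 := ℂ) (hf.toLp f)
  rw [EAV_inner] at h1
  have h2 : ∀ x, conj (f x) * f x = ((‖f x‖ ^ 2 : ℝ) : ℂ) := by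
    intro x
    rw [Complex.conj_mul']
    push_cast
    rfl
  simp only [h2] at h1
  rw [integral_complex_ofReal] at h1
  have h3 : ((‖hf.toLp f‖ ^ 2 : ℝ) : ℂ) = ((∫ x, ‖f x‖ ^ 2 ∂μ : ℝ) : ℂ) := by
    rw [h1]
    push_cast
    rfl
  exact_mod_cast h3

theorem EAV_le {X : Type} [MeasurableSpace X] (μ : Measure X) {f g : X → ℂ} (hf : MemLp f 2 μ) (hg : MemLp g 2 μ) (c : ℝ) (hc : 0 ≤ c)
    (h : ∫ x, ‖f x‖ ^ 2 ∂μ ≤ c ^ 2 * ∫ x, ‖g x‖ ^ 2 ∂μ) : ‖hf.toLp f‖ ≤ c * ‖hg.toLp g‖ := by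
  rw [← EAV_norm μ hf, ← EAV_norm μ hg, ← mul_pow] at h
  exact le_of_sq_le_sq h (mul_nonneg hc (norm_nonneg _))

theorem EAV_mul {X : Type} [MeasurableSpace X] (μ : Measure X) {f : X → ℂ} (hf : MemLp f 2 μ) {H : X → ℝ} (hH : Measurable H)
    (h1 : ∀ x, |H x| ≤ 1) : MemLp (fun x => ((H x : ℝ) : ℂ) * f x) 2 μ := by
  refine hf.mono ((Complex.measurable_ofReal.comp hH).aestronglyMeasurable.mul hf.1) (Eventually.of_forall fun x => ?_)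
  rw [norm_mul, Complex.norm_real, Real.norm_eq_abs]
  have := h1 x
  have := norm_nonneg (f x)
  nlinarith

theorem EAV_pure (hEAI : EAI_stmt) {X : Type} [MeasurableSpace X] (μ : Measure X) {Φ W Y : X → ℂ} {H G : X → ℝ} (hΦ : MemLp Φ 2 μ) (hW : MemLp W 2 μ)
    (hY : MemLp Y 2 μ) (hH : Measurable H) (hG : Measurable G) (hH1 : ∀ x, |H x| ≤ 1) (hG1 : ∀ x, |G x| ≤ 1) (ε κ : ℝ) (hε0 : 0 ≤ ε) (hε1 : ε ≤ 1) (hκ : 0 ≤ κ)
    (hV : ∀ s : ℂ, ∫ x, ‖W x + s * Y x‖ ^ 2 ∂μ ≤ (1 + ε) ^ 2 * ∫ x, ‖Φ x + s * (((H x : ℝ) : ℂ) * Φ x)‖ ^ 2 ∂μ)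
    (h1 : ∫ x, ‖W x - Φ x‖ ^ 2 ∂μ ≤ ε ^ 2 * ∫ x, ‖Φ x‖ ^ 2 ∂μ)
    (h2 : ∫ x, ‖Y x - ((G x : ℝ) : ℂ) * W x‖ ^ 2 ∂μ ≤ κ ^ 2 * ∫ x, ‖Φ x‖ ^ 2 ∂μ) :
    |(∫ x, G x * ‖Φ x‖ ^ 2 ∂μ) - ∫ x, H x * ‖Φ x‖ ^ 2 ∂μ| ≤ (ε + κ + 10 * Real.sqrt ε) * ∫ x, ‖Φ x‖ ^ 2 ∂μ := by
  have hHΦ := EAV_mul μ hΦ hH hH1
  have hGΦ := EAV_mul μ hΦ hG hG1
  have hGW := EAV_mul μ hW hG hG1
  set b := hΦ.toLp Φ with hb
  set a := hHΦ.toLp (fun x => ((H x : ℝ) : ℂ) * Φ x) with ha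
  set c := hGΦ.toLp (fun x => ((G x : ℝ) : ℂ) * Φ x) with hc
  set d := hGW.toLp (fun x => ((G x : ℝ) : ℂ) * W x) with hd
  set Vb := hW.toLp W with hVb
  set Va := hY.toLp Y with hVa
  -- the hypotheses of EAI
  have hVs : ∀ s : ℂ, ‖Vb + s • Va‖ ≤ (1 + ε) * ‖b + s • a‖ := by
    intro s
    have e1 : Vb + s • Va = (hW.add (hY.const_smul s)).toLp (W + s • Y) := by
      rw [MemLp.toLp_add hW (hY.const_smul s), MemLp.toLp_const_smul s hY]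
    have e2 : b + s • a = (hΦ.add (hHΦ.const_smul s)).toLp (Φ + s • (fun x => ((H x : ℝ) : ℂ) * Φ x)) := by
      rw [MemLp.toLp_add hΦ (hHΦ.const_smul s), MemLp.toLp_const_smul s hHΦ]
    rw [e1, e2]
    exact EAV_le μ _ _ (1 + ε) (by linarith) (hV s)
  have hVb1 : ‖Vb - b‖ ≤ ε * ‖b‖ := by
    have e1 : Vb - b = (hW.sub hΦ).toLp (W - Φ) := by
      rw [MemLp.toLp_sub hW hΦ]
    rw [e1]
    exact EAV_le μ _ _ ε hε0 h1
  have hE := hEAI (Lp ℂ 2 μ) a b Va Vb ε hε0 hε1 hVs hVb1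
  -- the other norms
  have hab : ‖a‖ ≤ ‖b‖ := by
    have e1 : ‖a‖ ≤ 1 * ‖b‖ := by
      refine EAV_le μ _ _ 1 zero_le_one ?_
      rw [one_pow, one_mul]
      refine integral_mono_of_nonneg (Eventually.of_forall fun x => sq_nonneg _) ((memLp_two_iff_integrable_sq_norm hΦ.1).1 hΦ) (Eventually.of_forall fun x => ?_)
      show ‖((H x : ℝ) : ℂ) * Φ x‖ ^ 2 ≤ ‖Φ x‖ ^ 2
      rw [norm_mul, Complex.norm_real, Real.norm_eq_abs, mul_pow]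
      have e2 : |H x| ^ 2 ≤ 1 := pow_le_one₀ (abs_nonneg _) (hH1 x)
      have e3 : 0 ≤ ‖Φ x‖ ^ 2 := sq_nonneg _
      nlinarith
    linarith
  have hcd : ‖c - d‖ ≤ ε * ‖b‖ := by
    have e1 : c - d = (hGΦ.sub hGW).toLp ((fun x => ((G x : ℝ) : ℂ) * Φ x) - fun x => ((G x : ℝ) : ℂ) * W x) := by
      rw [MemLp.toLp_sub hGΦ hGW]
    have e0 : ‖c - d‖ ≤ 1 * ‖(hW.sub hΦ).toLp (W - Φ)‖ := by
      rw [e1]
      refine EAV_le μ _ _ 1 zero_le_one ?_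
      rw [one_pow, one_mul]
      refine integral_mono_of_nonneg (Eventually.of_forall fun x => sq_nonneg _) ((memLp_two_iff_integrable_sq_norm (hW.sub hΦ).1).1 (hW.sub hΦ)) (Eventually.of_forall fun x => ?_)
      show ‖((G x : ℝ) : ℂ) * Φ x - ((G x : ℝ) : ℂ) * W x‖ ^ 2 ≤ ‖W x - Φ x‖ ^ 2
      rw [← mul_sub, norm_mul, Complex.norm_real, Real.norm_eq_abs, mul_pow, norm_sub_rev]
      have e2 : |G x| ^ 2 ≤ 1 := pow_le_one₀ (abs_nonneg _) (hG1 x)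
      have e3 : 0 ≤ ‖W x - Φ x‖ ^ 2 := sq_nonneg _
      nlinarith
    have e4 : ‖(hW.sub hΦ).toLp (W - Φ)‖ ≤ ε * ‖b‖ := EAV_le μ _ _ ε hε0 h1
    linarith
  have hdV : ‖d - Va‖ ≤ κ * ‖b‖ := by
    have e1 : Va - d = (hY.sub hGW).toLp (Y - fun x => ((G x : ℝ) : ℂ) * W x) := by
      rw [MemLp.toLp_sub hY hGW]
    rw [norm_sub_rev, e1]
    exact EAV_le μ _ _ κ hκ h2
  have hcb : inner ℂ c b = ((∫ x, G x * ‖Φ x‖ ^ 2 ∂μ : ℝ) : ℂ) := by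
    rw [hc, hb, EAV_inner, ← integral_complex_ofReal]
    refine integral_congr_ae (Eventually.of_forall fun x => ?_)
    show conj (((G x : ℝ) : ℂ) * Φ x) * Φ x = _
    rw [map_mul, Complex.conj_ofReal, mul_assoc, Complex.conj_mul']
    push_cast
    rfl
  have hinab : inner ℂ a b = ((∫ x, H x * ‖Φ x‖ ^ 2 ∂μ : ℝ) : ℂ) := by
    rw [ha, hb, EAV_inner, ← integral_complex_ofReal]
    refine integral_congr_ae (Eventually.of_forall fun x => ?_)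
    show conj (((H x : ℝ) : ℂ) * Φ x) * Φ x = _
    rw [map_mul, Complex.conj_ofReal, mul_assoc, Complex.conj_mul']
    push_cast
    rfl
  have hkey : ‖inner ℂ c b - inner ℂ a b‖ ≤ (ε + κ + 10 * Real.sqrt ε) * ‖b‖ ^ 2 := by
    have e1 : inner ℂ c b - inner ℂ a b = inner ℂ (c - d) b + inner ℂ (d - Va) b + (inner ℂ Va b - inner ℂ a b) := by
      rw [inner_sub_left, inner_sub_left]
      ring
    rw [e1]
    have e2 : ‖inner ℂ (c - d) b‖ ≤ ε * ‖b‖ ^ 2 := by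
      have := norm_inner_le_norm (𝕜 := ℂ) (c - d) b
      have e5 := norm_nonneg b
      nlinarith
    have e3 : ‖inner ℂ (d - Va) b‖ ≤ κ * ‖b‖ ^ 2 := by
      have := norm_inner_le_norm (𝕜 := ℂ) (d - Va) b
      have e5 := norm_nonneg b
      nlinarith
    have e4 : ‖inner ℂ Va b - inner ℂ a b‖ ≤ 10 * Real.sqrt ε * ‖b‖ ^ 2 := by
      refine hE.trans ?_
      have e5 := norm_nonneg b
      have e6 : 0 ≤ 10 * Real.sqrt ε := by positivity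
      calc 10 * Real.sqrt ε * ‖a‖ * ‖b‖ ≤ 10 * Real.sqrt ε * ‖b‖ * ‖b‖ := by gcongr
        _ = 10 * Real.sqrt ε * ‖b‖ ^ 2 := by ring
    have e7 := norm_add_le (inner ℂ (c - d) b + inner ℂ (d - Va) b) (inner ℂ Va b - inner ℂ a b)
    have e8 := norm_add_le (inner ℂ (c - d) b) (inner ℂ (d - Va) b)
    linarith
  rw [hcb, hinab, EAV_norm, ← Complex.ofReal_sub, Complex.norm_real, Real.norm_eq_abs] at hkey
  exact hkey

theorem EAV_lin {Γ : Type} [Group Γ] {Y : Type} [MeasurableSpace Y] [MulAction Γ Y] {m : Measure Y} {K : Y → Y → ℂ} {v w : Y → ℂ}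
    (hv : ∀ y, Integrable (fun x => K y x * v x) m) (hw : ∀ y, Integrable (fun x => K y x * w x) m) (s : ℂ) (p : Y) :
    OY m K (fun q => v q + s * w q) p = OY m K v p + s * OY m K w p := by
  unfold OY
  rw [← integral_const_mul, ← integral_add (hv p) ((hw p).const_mul s)]
  refine integral_congr_ae (Eventually.of_forall fun q => ?_)
  show K p q * (v q + s * w q) = K p q * v q + s * (K p q * w q)
  ring

theorem EAV_add {Γ : Type} [Group Γ] {Y : Type} [MeasurableSpace Y] [MulAction Γ Y] {v w : Y → ℂ} (hv : FB Γ v) (hw : FB Γ w) (s : ℂ) :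
    FB Γ (fun q => v q + s * w q) := by
  obtain ⟨b1, hb1⟩ := hv.bdd
  obtain ⟨b2, hb2⟩ := hw.bdd
  refine ⟨hv.meas.add (measurable_const.mul hw.meas), ⟨b1 + ‖s‖ * b2, fun p => ?_⟩, fun γ p => ?_⟩
  · refine (norm_add_le _ _).trans (add_le_add (hb1 p) ?_)
    rw [norm_mul]
    exact mul_le_mul_of_nonneg_left (hb2 p) (norm_nonneg _)
  · rw [hv.inv γ p, hw.inv γ p]

theorem EAV_fm {Γ : Type} [Group Γ] {Y : Type} [MeasurableSpace Y] [MulAction Γ Y] {v h : Y → ℂ} (hv : FB Γ v) (hm : Measurable h) (h1 : ∀ p, ‖h p‖ ≤ 1)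
    (hi : ∀ (γ : Γ) (p : Y), h (γ • p) = h p) : FB Γ (fun q => h q * v q) := by
  obtain ⟨b1, hb1⟩ := hv.bdd
  refine ⟨hm.mul hv.meas, ⟨1 * b1, fun p => ?_⟩, fun γ p => ?_⟩
  · rw [norm_mul]
    exact mul_le_mul (h1 p) (hb1 p) (norm_nonneg _) zero_le_one
  · rw [hv.inv γ p, hi γ p]

theorem EAV_c {Γ : Type} [Group Γ] {Y : Type} [MeasurableSpace Y] [MulAction Γ Y] {h : Y → ℝ} (hh : FR Γ h) : FB Γ (fun y => ((h y : ℝ) : ℂ)) := by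
  refine ⟨Complex.measurable_ofReal.comp hh.meas, ⟨1, fun y => ?_⟩, fun γ y => ?_⟩
  · rw [Complex.norm_real, Real.norm_eq_abs]
    exact hh.bd y
  · rw [hh.inv γ y]

theorem EAV_proof (hEAI : EAI_stmt) (hEAO : EAO_stmt) (hEAC : EAC_stmt) : EAV_stmt := by
  intro Γ _ Y _ _ m D d hPS K ε b w δ η Φ H H' hST hw hεδ hδ1 hΦ hη hH hH' hHH hE
  obtain ⟨hO1, -, hO3, -⟩ := hEAO Γ Y m D d hPS
  have hδ0 : 0 ≤ δ := hST.e0.trans hεδ
  set E1 : Y → ℂ := fun p => Complex.exp (-(((η p : ℝ) : ℂ) * Complex.I)) with hE1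
  have hE1m : Measurable E1 := by
    refine Complex.measurable_exp.comp ?_
    exact ((Complex.measurable_ofReal.comp hη.meas).mul_const _).neg
  have hE1n : ∀ p, ‖E1 p‖ = 1 := by
    intro p
    show ‖Complex.exp (-(((η p : ℝ) : ℂ) * Complex.I))‖ = 1
    rw [← neg_mul, ← Complex.ofReal_neg, Complex.norm_exp_ofReal_mul_I]
  have hE1i : ∀ (γ : Γ) (p : Y), E1 (γ • p) = E1 p := by
    intro γ p
    show Complex.exp (-(((η (γ • p) : ℝ) : ℂ) * Complex.I)) = _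
    rw [hη.inv γ p]
  have hHc := EAV_c hH
  have hHc' := EAV_c hH'
  have hHn : ∀ p, ‖((H p : ℝ) : ℂ)‖ ≤ 1 := by
    intro p
    rw [Complex.norm_real, Real.norm_eq_abs]
    exact hH.bd p
  have hHΦ : FB Γ (fun q => ((H q : ℝ) : ℂ) * Φ q) := EAV_fm hΦ hHc.meas hHn hHc.inv
  have hOΦ : FB Γ (OY m K Φ) := (hO1 K Φ hST.kz hΦ).1
  have hOHΦ : FB Γ (OY m K (fun q => ((H q : ℝ) : ℂ) * Φ q)) := (hO1 K _ hST.kz hHΦ).1
  have hW : FB Γ (fun p => E1 p * OY m K Φ p) := EAV_fm hOΦ hE1m (fun p => (hE1n p).le) hE1i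
  have hY : FB Γ (fun p => E1 p * OY m K (fun q => ((H q : ℝ) : ℂ) * Φ q) p) := EAV_fm hOHΦ hE1m (fun p => (hE1n p).le) hE1i
  have hn0 : ∀ v, FB Γ v → 0 ≤ nY m D v := fun v hv => (hO3 v hv).1
  have key := EAV_pure hEAI (m.restrict D) (Φ := Φ) (W := fun p => E1 p * OY m K Φ p)
    (Y := fun p => E1 p * OY m K (fun q => ((H q : ℝ) : ℂ) * Φ q) p) (H := H) (G := H')
    (hO3 Φ hΦ).2.2 (hO3 _ hW).2.2 (hO3 _ hY).2.2 hH.meas hH'.meas hH.bd hH'.bd δ (w * b)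
    hδ0 hδ1 (mul_nonneg hw hST.b0) (fun s => ?_) ?_ ?_
  · refine key.trans ?_
    have e1 : ∫ x in D, ‖Φ x‖ ^ 2 ∂m = nY m D Φ := rfl
    rw [e1]
    refine mul_le_mul_of_nonneg_right ?_ (hn0 Φ hΦ)
    have e2 : δ ≤ Real.sqrt δ := by
      refine Real.le_sqrt_of_sq_le ?_
      nlinarith
    linarith
  · have e1 : ∀ p, ‖E1 p * OY m K Φ p + s * (E1 p * OY m K (fun q => ((H q : ℝ) : ℂ) * Φ q) p)‖ ^ 2 = ‖OY m K (fun q => Φ q + s * (((H q : ℝ) : ℂ) * Φ q)) p‖ ^ 2 := by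
      intro p
      rw [EAV_lin (Γ := Γ) (hO1 K Φ hST.kz hΦ).2.1 (hO1 K _ hST.kz hHΦ).2.1 s p]
      have e2 : E1 p * OY m K Φ p + s * (E1 p * OY m K (fun q => ((H q : ℝ) : ℂ) * Φ q) p) = E1 p * (OY m K Φ p + s * OY m K (fun q => ((H q : ℝ) : ℂ) * Φ q) p) := by ring
      rw [e2, norm_mul, hE1n, one_mul]
    simp only [e1]
    have hadd := EAV_add hΦ hHΦ s
    have e3 := hST.con _ hadd
    refine e3.trans (mul_le_mul_of_nonneg_right ?_ (hn0 _ hadd))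
    have := hST.e0
    exact pow_le_pow_left₀ (by linarith) (by linarith) 2
  · have e1 : ∀ p, ‖E1 p * OY m K Φ p - Φ p‖ ^ 2 = ‖OY m K Φ p - Complex.exp (((η p : ℝ) : ℂ) * Complex.I) * Φ p‖ ^ 2 := by
      intro p
      have e2 : E1 p * Complex.exp (((η p : ℝ) : ℂ) * Complex.I) = 1 := by
        show Complex.exp (-(((η p : ℝ) : ℂ) * Complex.I)) * _ = 1
        rw [← Complex.exp_add, neg_add_cancel, Complex.exp_zero]
      have e3 : E1 p * OY m K Φ p - Φ p = E1 p * (OY m K Φ p - Complex.exp (((η p : ℝ) : ℂ) * Complex.I) * Φ p) := by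
        rw [mul_sub, ← mul_assoc, e2, one_mul]
      rw [e3, norm_mul, hE1n, one_mul]
    simp only [e1]
    exact hE
  · have e1 : ∀ p, ‖E1 p * OY m K (fun q => ((H q : ℝ) : ℂ) * Φ q) p - ((H' p : ℝ) : ℂ) * (E1 p * OY m K Φ p)‖ ^ 2 =
        ‖OY m K (fun q => ((H q : ℝ) : ℂ) * Φ q) p - ((H' p : ℝ) : ℂ) * OY m K Φ p‖ ^ 2 := by
      intro p
      have e3 : E1 p * OY m K (fun q => ((H q : ℝ) : ℂ) * Φ q) p - ((H' p : ℝ) : ℂ) * (E1 p * OY m K Φ p) =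
          E1 p * (OY m K (fun q => ((H q : ℝ) : ℂ) * Φ q) p - ((H' p : ℝ) : ℂ) * OY m K Φ p) := by ring
      rw [e3, norm_mul, hE1n, one_mul]
    simp only [e1]
    refine hEAC Γ Y m D d hPS K ε b w (fun y => ((H y : ℝ) : ℂ)) (fun y => ((H' y : ℝ) : ℂ)) Φ hST hw hHc hHc' hΦ fun y x hyx => ?_
    rw [← Complex.ofReal_sub, Complex.norm_real, Real.norm_eq_abs]
    exact hHH y x hyx

end

end Pool.Agent.VDA
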