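import Pool.Agent.helper55.VD.SpecE3

set_option autoImplicit false

open scoped ContDiff Topology InnerProductSpace ComplexConjugate ENNReal
open MeasureTheory Filter Set

namespace Pool.Agent.VD

open Pool.Agent.VQ (CH KZ PS perZ cmZ)
open Pool.Agent.RPQ (IsOp)

noncomputable section

/-- the numbers -/
theorem EEH_num (C e2 z2 R t : ℝ) (hC : 1 ≤ C) (h1 : 24 * C * e2 ≤ 1) (h2 : 24 * z2 ≤ 1) (he2 : 0 < e2)
    (hR1 : 1 ≤ R) (hR : (C * Real.exp C) ^ 12 ≤ R) (ht : t ≤ e2 * Real.log R + 1) :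
    C * Real.exp (C * t) * R ^ (-(1 / 2) + z2) ≤ R ^ (-(1 / 3) : ℝ) := by
  have hR0 : 0 < R := by linarith
  have hlog : 0 ≤ Real.log R := Real.log_nonneg hR1
  have hC0 : 0 < C := by linarith
  have a1 : Real.exp (C * t) ≤ Real.exp C * R ^ (1 / 24 : ℝ) := by
    rw [Real.rpow_def_of_pos hR0, ← Real.exp_add]
    apply Real.exp_le_exp.2
    have b1 : C * t ≤ C * (e2 * Real.log R + 1) := mul_le_mul_of_nonneg_left ht hC0.le
    have b2 : C * e2 * Real.log R ≤ 1 / 24 * Real.log R := mul_le_mul_of_nonneg_right (by linarith) hlog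
    nlinarith
  have a2 : C * Real.exp C ≤ R ^ (1 / 12 : ℝ) := by
    have b0 : 0 ≤ C * Real.exp C := by positivity
    have b1 : ((C * Real.exp C) ^ 12) ^ (1 / 12 : ℝ) ≤ R ^ (1 / 12 : ℝ) :=
      Real.rpow_le_rpow (by positivity) hR (by norm_num)
    have b2 : ((C * Real.exp C) ^ 12) ^ (1 / 12 : ℝ) = C * Real.exp C := by
      have b3 := Real.pow_rpow_inv_natCast (x := C * Real.exp C) (n := 12) b0 (by norm_num)
      have b4 : (1 / 12 : ℝ) = ((12 : ℕ) : ℝ)⁻¹ := by norm_num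
      rw [b4]
      exact b3
    rwa [b2] at b1
  have a3 : R ^ (-(1 / 2) + z2) ≤ R ^ (-(11 / 24) : ℝ) := Real.rpow_le_rpow_of_exponent_le hR1 (by linarith)
  have a4 : R ^ (1 / 12 : ℝ) * R ^ (1 / 24 : ℝ) * R ^ (-(11 / 24) : ℝ) = R ^ (-(1 / 3) : ℝ) := by
    rw [← Real.rpow_add hR0, ← Real.rpow_add hR0]
    norm_num
  have p1 : 0 ≤ R ^ (1 / 24 : ℝ) := Real.rpow_nonneg hR0.le _
  have p2 : 0 ≤ R ^ (-(1 / 2) + z2) := Real.rpow_nonneg hR0.le _
  have p3 : 0 ≤ R ^ (1 / 12 : ℝ) := Real.rpow_nonneg hR0.le _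
  calc C * Real.exp (C * t) * R ^ (-(1 / 2) + z2) ≤ C * (Real.exp C * R ^ (1 / 24 : ℝ)) * R ^ (-(1 / 2) + z2) := by gcongr
    _ = (C * Real.exp C) * R ^ (1 / 24 : ℝ) * R ^ (-(1 / 2) + z2) := by ring
    _ ≤ R ^ (1 / 12 : ℝ) * R ^ (1 / 24 : ℝ) * R ^ (-(11 / 24) : ℝ) := by gcongr
    _ = R ^ (-(1 / 3) : ℝ) := a4

theorem EEH_proof (hEEG : EEG_stmt) (hACNF : ACNF_stmt) (hALFX : ALFX_stmt) : EEH_stmt := by
  intro d Γ _ _ K k B r0 hK
  obtain ⟨C1, hC1, H1⟩ := hACNF d Γ K k B r0 1 hK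
  obtain ⟨C2, hC2, H2⟩ := hEEG d Γ K k B (C1 + 1) hK
  obtain ⟨m, hm⟩ := hK.compact.isBounded.exists_norm_le
  refine ⟨24 * C2 + |m| + 1, by have := abs_nonneg m; linarith, fun A hA => ?_⟩
  have hm0 := abs_nonneg m
  have hAe2 : 24 * C2 * A.e2 ≤ 1 := by
    have := hA.e2'
    have h0 := hA.e2
    nlinarith
  have hAz2 : 24 * A.z2 ≤ 1 := by
    have h0 : 0 < A.z2 := (EAM1 hA (by linarith)).2.2.2.2.1
    have := hA.up
    nlinarith
  have hpos : 0 ≤ (C2 * Real.exp C2) ^ 12 := by positivity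
  refine ⟨256 + (C2 * Real.exp C2) ^ 12, by linarith, ?_⟩
  intro R t L G Φ g y y' hR hOK hg hgs hL hgL hSt ht0 ht
  have hR1 : 1 ≤ R := by linarith
  have hR0 : 0 < R := by linarith
  obtain ⟨hy, hy', hd⟩ := hSt
  obtain ⟨l1, l2, l3, l4, l5, l6, l7, -⟩ := hALFX d Γ K k B G Φ hOK
  -- the window
  have hw : R ^ (-(1 / 4) : ℝ) ≤ 1 / 4 := by
    have b1 : (256 : ℝ) ^ (-(1 / 4) : ℝ) = 1 / 4 := by
      have b2 : (256 : ℝ) = (4 : ℝ) ^ (4 : ℕ) := by norm_num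
      have b3 : ((4 : ℕ) : ℝ) * (-(1 / 4)) = -1 := by norm_num
      rw [b2, ← Real.rpow_natCast, ← Real.rpow_mul (by norm_num : (0 : ℝ) ≤ 4), b3, Real.rpow_neg_one, one_div]
    have b4 : R ^ (-(1 / 4) : ℝ) ≤ (256 : ℝ) ^ (-(1 / 4) : ℝ) :=
      Real.rpow_le_rpow_of_nonpos (by norm_num) (by linarith) (by norm_num)
    exact b4.trans b1.le
  have hHam : ∀ w : YS Γ d, w ∈ GW Γ G r0 2 R → Ham G w.2 ≤ 1 := by
    intro w hw'
    have b1 := (abs_le.1 hw'.2).2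
    unfold Ep at b1
    linarith
  have hsr : A.r R ≤ 1 := by
    unfold Par.r
    exact Real.rpow_le_one_of_one_le_of_nonpos hR1 (by linarith)
  set p : P d := Φ 1 y.2 with hp
  set q : P d := rel y y' with hq
  have c1 := H1 G Φ hOK y.2 1 hy.1 (by have := hHam y hy; linarith) (by simp)
  have hp1 : ‖p.1‖ ≤ C1 + 1 := by
    have := c1.1
    linarith
  have hq1 : ‖q.1‖ ≤ C1 + 1 := by
    have b1 : dist p.1 q.1 ≤ dist p q := by
      rw [Prod.dist_eq]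
      exact le_max_left _ _
    have b2 : ‖q.1‖ ≤ ‖p.1‖ + dist p.1 q.1 := by
      rw [dist_eq_norm, norm_sub_rev]
      have := norm_add_le p.1 (q.1 - p.1)
      rwa [add_sub_cancel] at this
    have := c1.1
    linarith
  have hpH : Ham G p ≤ 1 := by
    rw [hp, l7]
    exact hHam y hy
  have hqH : Ham G q ≤ 1 := by
    rw [hq, rel, l5]
    exact hHam y' hy'
  have hts : C2 * Real.exp (C2 * t) * A.r R ≤ R ^ (-(1 / 3) : ℝ) := by
    refine EEH_num C2 A.e2 A.z2 R t hC2 hAe2 hAz2 hA.e2 hR1 (by linarith) (ht.trans ?_)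
    unfold Par.tu Par.n
    have b1 : (⌊A.e2 * Real.log R⌋₊ : ℝ) ≤ A.e2 * Real.log R :=
      Nat.floor_le (mul_nonneg hA.e2.le (Real.log_nonneg hR1))
    linarith
  have hR13 : R ^ (-(1 / 3) : ℝ) ≤ 1 := Real.rpow_le_one_of_one_le_of_nonpos hR1 (by norm_num)
  obtain ⟨γ, hγ, hγd⟩ := H2 G Φ p q t (A.r R) hOK hp1 hq1 hpH hqH ht0 hd.le (hts.trans hR13)
  -- the values
  have e1 : g (Φ (t + 1) y.2).1 = g (lft γ (Φ t p)).1 := by
    have b1 : (lft γ (Φ t p)).1 = γ • (Φ t p).1 := rfl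
    rw [b1, hg, hp, hOK.flow.add]
  have e2 : g (Φ t y'.2).1 = g (lft γ (Φ t q)).1 := by
    have b1 : (lft γ (Φ t q)).1 = γ • (Φ t q).1 := rfl
    have b2 : Φ t q = lft (y.1⁻¹ * y'.1) (Φ t y'.2) := by
      rw [hq, rel, l6]
    have b3 : (lft (y.1⁻¹ * y'.1) (Φ t y'.2)).1 = (y.1⁻¹ * y'.1) • (Φ t y'.2).1 := rfl
    rw [b1, hg, b2, b3, hg]
  rw [e1, e2]
  set a : V d := (lft γ (Φ t p)).1 with ha
  set b : V d := (lft γ (Φ t q)).1 with hb
  have hab : ‖b - a‖ ≤ R ^ (-(1 / 3) : ℝ) := by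
    have b1 : dist b a ≤ dist (lft γ (Φ t p)) (lft γ (Φ t q)) := by
      rw [dist_comm, Prod.dist_eq]
      exact le_max_left _ _
    rw [← dist_eq_norm]
    linarith
  have haK : ‖a‖ ≤ |m| := (hm a hγ).trans (le_abs_self m)
  have hbK : ‖b‖ ≤ |m| + 1 := by
    have b2 : ‖b‖ ≤ ‖a‖ + ‖b - a‖ := by
      have := norm_add_le a (b - a)
      rwa [add_sub_cancel] at this
    linarith
  have key := (convex_closedBall (0 : V d) (24 * C2 + |m| + 1)).norm_image_sub_le_of_norm_fderiv_le (𝕜 := ℝ) (f := g) (C := L) (x := b) (y := a)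
    (fun x _ => hgs.differentiable one_ne_zero x) (fun x hx => hgL x (by simpa using hx))
    (by simp only [Metric.mem_closedBall, dist_zero_right]; linarith) (by simp only [Metric.mem_closedBall, dist_zero_right]; linarith)
  rw [Real.norm_eq_abs, norm_sub_rev a b] at key
  exact key.trans (mul_le_mul_of_nonneg_left hab hL)

end

end Pool.Agent.VD
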